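import Pool.Agent.H39.Newt4.Stmts

/-!
# Project NEWTON4, module LCL: the generic case
-/

set_option autoImplicit false

namespace Pool.Newt4

open MvPolynomial Pool.Agent.H39.MonoR Pool.Agent.H75.Mono Pool.Newt Pool.Newt2 Pool.Newt3

theorem sLcl (hPol : SPol) (hLcr : SLcr) : SLcl := by
  intro σ I _ _ a α K ⟨R⟩ hK t0 ht0 W hW T hT
  obtain ⟨J0, hJ0⟩ := hPol σ I a ∅ α K R
  have hm : ∀ (i : I) (m : ℕ), t0 i = -m → m ≤ max J0 (∑ i, ⌈|t0 i|⌉₊) := by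
    intro i m h
    have h1 : m ≤ ⌈|t0 i|⌉₊ := by
      have : ((m : ℕ) : ℝ) ≤ ((⌈|t0 i|⌉₊ : ℕ) : ℝ) := by
        calc ((m : ℕ) : ℝ) = |t0 i| := by rw [h, abs_neg, Nat.abs_cast]
          _ ≤ _ := Nat.le_ceil _
      exact_mod_cast this
    exact (h1.trans (Finset.single_le_sum (f := fun i => ⌈|t0 i|⌉₊) (fun _ _ => Nat.zero_le _)
      (Finset.mem_univ i))).trans (le_max_right _ _)
  have hcard : (Zr t0 0).card < K := (Finset.card_le_univ _).trans_lt hK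
  have key := hLcr σ I a ∅ α K R (max J0 (∑ i, ⌈|t0 i|⌉₊)) (hJ0 _ (le_max_left _ _)) t0 ht0 W hW
    hm hcard
  refine Ideal.span_mono ?_ key
  rintro g (⟨κ, hκ, hκ0, _, rfl⟩ | ⟨δ, hδ, rfl⟩)
  · exact Or.inl (Or.inl ⟨κ, R.hDk κ hκ, hκ0, rfl⟩)
  · exact Or.inl (Or.inr ⟨δ, R.hDd δ hδ, rfl⟩)

end Pool.Newt4
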